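import Pool.Agent.H77.SSA.GDefs

set_option linter.unusedVariables false
set_option synthInstance.maxSize 100000

namespace SSA

open SW CU CUR

theorem fb_get : GETStmt := by
  intro P _ ν c hg n R hR w k V hV h
  refine (fs_truth R ν c hg w).2 ⟨k, ?_⟩
  refine fs_dense R fun q hq => ?_
  obtain ⟨r, hr, hVr⟩ := hV q hq
  obtain ⟨η, hη⟩ := h r hVr (hr.trans hq)
  refine ⟨r, hr, ?_⟩
  let η' : ℕ → HN P Tg := fun i => if i = 0 then omH P Tg else
    if i % 2 = 1 then numH P Tg (i / 2) else η (i / 2 - 1)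
  refine fs_of R η' fun ν' c' hg' hk w' hw' u hu => ?_
  refine hη ν' c' hg' ⟨fun n => ⟨u (2 * n + 1), ?_⟩, ⟨u 0, ?_⟩⟩ hk w' hw'
    (fun i => u (2 * i + 2)) fun i => ?_
  · rw [hu]
    simp only [η']
    rw [if_neg (by omega), if_pos (by omega)]
    congr 1
    omega
  · rw [hu]
    simp [η']
  · rw [hu]
    simp only [η']
    rw [if_neg (by omega), if_neg (by omega)]
    congr 1
    omega

end SSA
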