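import Pool.Agent.H77.SSA.GDefs

set_option linter.unusedVariables false
set_option synthInstance.maxSize 100000

namespace SSA

open SW CU CUR

section
variable {N : Type} [SetStr N] [ZF N]

theorem fb_isFn (f a b : N) : IsFn f a b ↔ (∀ z, E z f → ∃ x y, E x a ∧ E y b ∧ z = opair x y) ∧
    (∀ x, E x a → ∃ y, E (opair x y) f) ∧
    ∀ x y y', E (opair x y) f → E (opair x y') f → y = y' := by
  unfold IsFn
  simp only [isOP_iff, pairIn_iff]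

theorem fb_isInjFn (f a b : N) : IsInjFn f a b ↔
    IsFn f a b ∧ ∀ x x' y, E (opair x y) f → E (opair x' y) f → x = x' := by
  unfold IsInjFn
  simp only [pairIn_iff]

/-- composition -/
noncomputable def fbc (a c f g : N) : N :=
  sep (prod a c) (fun u => ∃ x y z, u = opair x z ∧ E (opair x y) f ∧ E (opair y z) g)

theorem mem_fbc {a b c f g x z : N} (hf : IsFn f a b) (hg : IsFn g b c) :
    E (opair x z) (fbc a c f g) ↔ ∃ y, E (opair x y) f ∧ E (opair y z) g := by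
  unfold fbc
  rw [mem_sep]
  constructor
  · rintro ⟨_, x', y, z', h1, h2, h3⟩
    rw [opair_inj] at h1
    obtain ⟨rfl, rfl⟩ := h1
    exact ⟨y, h2, h3⟩
  · rintro ⟨y, h2, h3⟩
    refine ⟨?_, x, y, z, rfl, h2, h3⟩
    rw [fb_isFn] at hf hg
    obtain ⟨x', y', h4, h5, h6⟩ := hf.1 _ h2
    obtain ⟨y'', z', h7, h8, h9⟩ := hg.1 _ h3
    rw [opair_inj] at h6 h9
    rw [mem_prod, h6.1, h9.2]
    exact ⟨h4, h8⟩

theorem isInj_fbc {a b c f g : N} (hf : IsInjFn f a b) (hg : IsInjFn g b c) :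
    IsInjFn (fbc a c f g) a c := by
  rw [fb_isInjFn, fb_isFn]
  have hf' := (fb_isInjFn f a b).1 hf
  have hg' := (fb_isInjFn g b c).1 hg
  have hf1 := (fb_isFn f a b).1 hf.1
  have hg1 := (fb_isFn g b c).1 hg.1
  refine ⟨⟨fun z hz => ?_, fun x hx => ?_, fun x z z' h1 h2 => ?_⟩, fun x x' z h1 h2 => ?_⟩
  · unfold fbc at hz
    rw [mem_sep] at hz
    obtain ⟨hz, x, y, z', rfl, h1, h2⟩ := hz
    rw [mem_prod] at hz
    exact ⟨x, z', hz.1, hz.2, rfl⟩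
  · obtain ⟨y, hy⟩ := hf1.2.1 x hx
    obtain ⟨x', y', h4, h5, h6⟩ := hf1.1 _ hy
    rw [opair_inj] at h6
    obtain ⟨z, hz⟩ := hg1.2.1 y (h6.2 ▸ h5)
    exact ⟨z, (mem_fbc hf.1 hg.1).2 ⟨y, hy, hz⟩⟩
  · rw [mem_fbc hf.1 hg.1] at h1 h2
    obtain ⟨y, h3, h4⟩ := h1
    obtain ⟨y', h5, h6⟩ := h2
    obtain rfl := hf1.2.2 _ _ _ h3 h5
    exact hg1.2.2 _ _ _ h4 h6
  · rw [mem_fbc hf.1 hg.1] at h1 h2
    obtain ⟨y, h3, h4⟩ := h1
    obtain ⟨y', h5, h6⟩ := h2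
    obtain rfl := hg'.2 _ _ _ h4 h6
    exact hf'.2 _ _ _ h3 h5

end

theorem fb_siz : SIZStmt := by
  intro N _ _
  refine ⟨fun a b c h1 h2 => ?_, fun a b c h1 h2 => ?_, fun a b h => ?_⟩
  · obtain ⟨f, hf⟩ := h1
    obtain ⟨g, hg⟩ := h2
    exact ⟨_, isInj_fbc hf hg⟩
  · obtain ⟨f, hf, hf'⟩ := h1
    obtain ⟨g, hg, hg'⟩ := h2
    refine ⟨_, isInj_fbc hf hg, fun z hz => ?_⟩
    obtain ⟨y, hy⟩ := hg' z hz
    have hg1 := (fb_isFn g b c).1 hg.1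
    rw [pairIn_iff] at hy
    obtain ⟨y', z', h4, h5, h6⟩ := hg1.1 _ hy
    rw [opair_inj] at h6
    obtain ⟨x, hx⟩ := hf' y (h6.1 ▸ h4)
    rw [pairIn_iff] at hx
    refine ⟨x, ?_⟩
    rw [pairIn_iff]
    exact (mem_fbc hf.1 hg.1).2 ⟨y, hx, hy⟩
  · obtain ⟨f, hf⟩ := h
    refine ⟨sep b (fun y => ∃ x, E (opair x y) f), fun y hy => ?_, f, ?_, fun y hy => ?_⟩
    · rw [mem_sep] at hy
      exact hy.1
    · have hf1 := (fb_isFn f a b).1 hf.1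
      refine ⟨?_, hf.2⟩
      rw [fb_isFn]
      refine ⟨fun z hz => ?_, hf1.2.1, hf1.2.2⟩
      obtain ⟨x, y, h1, h2, rfl⟩ := hf1.1 z hz
      refine ⟨x, y, h1, ?_, rfl⟩
      rw [mem_sep]
      exact ⟨h2, x, hz⟩
    · rw [mem_sep] at hy
      obtain ⟨_, x, hx⟩ := hy
      exact ⟨x, by rw [pairIn_iff]; exact hx⟩

end SSA
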