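import Pool.Agent.H77.SSA.GDefs

set_option linter.unusedVariables false
set_option synthInstance.maxSize 100000

namespace SSA

open SW CU CUR

section
variable {P : Type} [Preorder P]

theorem fb_both {ι ι' : Type} {Q : P → ι → Prop} {Q' : P → ι' → Prop}
    (hm : ∀ p q i, q ≤ p → Q p i → Q q i) {ν : ℕ → HN P Tg} {c : ℕ → P} (hg : Gn ν c)
    {k k' l : ℕ} {i : ι} {i' : ι'} {r : P} (hr : c l ≤ r) (h : Fo Q (c k) i)
    (h' : Fo Q' (c k') i') : ∃ s, s ≤ r ∧ Q s i ∧ Q' s i' := by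
  have hle := le_of_anti hg.anti
  let K := max l (max k k')
  have h1 : c K ≤ c l := hle _ _ (le_max_left _ _)
  have h2 : c K ≤ c k := hle _ _ ((le_max_left _ _).trans (le_max_right _ _))
  have h3 : c K ≤ c k' := hle _ _ ((le_max_right _ _).trans (le_max_right _ _))
  obtain ⟨s, hs, hq⟩ := h (c K) h2
  obtain ⟨s', hs', hq'⟩ := h' s (hs.trans h3)
  exact ⟨s', ((hs'.trans hs).trans h1).trans hr, hm _ _ _ hs' hq, hq'⟩

end

theorem fb_smp (hG : GETStmt) (hE : EVAStmt) (hB : BASStmt) : SMPStmt := by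
  intro P _ Ω _ _ D ν c hg hr _ o b z ho hb hz
  obtain ⟨e1, e2, e3, e4, _⟩ := hE P Ω D ν c hg hr
  obtain ⟨b1, b2, b3⟩ := hB P ν c hg hr
  obtain ⟨j, hj⟩ := hr.2
  refine ⟨fun x hx N0 => ?_, fun x y hx hy hxy => ?_, fun x hx n => ?_⟩
  · obtain ⟨ξ, m, hm, rfl⟩ := (e1 o ho x).1 hx
    obtain ⟨i, hi⟩ := hr.1 N0
    have key := hG P ν c hg (fun N _ (w : Fin 4 → N) => ∃ n, E n (w 2) ∧
      (E (w 3) n ∨ w 3 = n) ∧ PairIn (w 0) n (w 1)) ![m, b, j, i] 0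
      (fun r => ∃ v, N0 ≤ v ∧ D.ar r ξ v) (fun q _ => D.ar_inf q ξ N0) ?_
    · obtain ⟨n, h1, h2, h3⟩ := key
      have h1' : E n (qc ν c j) := h1
      rw [b3 j hj] at h1'
      obtain ⟨n', rfl⟩ := b1 n h1'
      refine ⟨n', ?_, ?_⟩
      · have h2' : E (qc ν c i) (nu n') ∨ qc ν c i = nu n' := h2
        rw [b2 i N0 hi] at h2'
        rcases h2' with h2' | h2'
        · obtain ⟨k, hk, e⟩ := (mem_nu _ _).1 h2'
          rw [nu_inj e]
          exact hk.le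
        · rw [nu_inj h2']
      · have h3' : PairIn (qc ν c m) (nu n') (qc ν c b) := h3
        rwa [pairIn_iff] at h3'
    · rintro r ⟨v, hv, har⟩ _
      refine ⟨numH P Tg, fun ν' c' hg' hr' ⟨l, hl⟩ w' hw' u hu => ?_⟩
      have := gn_zf hg'
      obtain ⟨e1', e2', e3', e4', _⟩ := hE P Ω D ν' c' hg' hr'
      obtain ⟨b1', b2', b3'⟩ := hB P ν' c' hg' hr'
      have w0 : ν' (w' 0) = chkH ξ := (hw' 0).trans hm
      have w1 : ν' (w' 1) = aN D := (hw' 1).trans hb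
      have w2 : ν' (w' 2) = omH P Tg := (hw' 2).trans hj
      have w3 : ν' (w' 3) = numH P Tg N0 := (hw' 3).trans hi
      refine ⟨nu v, ?_, ?_, ?_⟩
      · show E (nu v) (qc ν' c' (w' 2))
        rw [b3' _ w2]
        exact nu_mem_om v
      · show E (qc ν' c' (w' 3)) (nu v) ∨ qc ν' c' (w' 3) = nu v
        rw [b2' _ _ w3]
        rcases Nat.lt_or_eq_of_le hv with h | h
        · exact Or.inl (nu_lt h)
        · exact Or.inr (by rw [h])
      · show PairIn (qc ν' c' (w' 0)) (nu v) (qc ν' c' (w' 1))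
        rw [pairIn_iff]
        exact (e3' _ _ ξ v w1 w0).2 ⟨l, fun q hq => ⟨q, le_rfl, D.ar_mono (hq.trans hl) har⟩⟩
  · obtain ⟨ξ, m, hm, rfl⟩ := (e1 o ho x).1 hx
    obtain ⟨ξ', m', hm', rfl⟩ := (e1 o ho y).1 hy
    have hne : ξ ≠ ξ' := fun h => hxy ((e2 m m' ξ ξ' hm hm').2 h)
    have key := hG P ν c hg (fun N _ (w : Fin 4 → N) => ∃ k, E k (w 3) ∧ ∀ n, E n (w 3) →
      ¬ E n k → ¬ (PairIn (w 0) n (w 2) ∧ PairIn (w 1) n (w 2))) ![m, m', b, j] 0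
      (fun r => ∃ N, ∀ v, N ≤ v → ∀ s, s ≤ r → ¬ (D.ar s ξ v ∧ D.ar s ξ' v))
      (fun q _ => D.ar_ad q ξ ξ' hne) ?_
    · obtain ⟨k, h1, h2⟩ := key
      have h1' : E k (qc ν c j) := h1
      rw [b3 j hj] at h1'
      obtain ⟨k', rfl⟩ := b1 k h1'
      refine ⟨k', fun n hn hh => h2 (nu n) ?_ ?_ ⟨?_, ?_⟩⟩
      · show E (nu n) (qc ν c j)
        rw [b3 j hj]
        exact nu_mem_om n
      · intro h3
        obtain ⟨t, ht, e⟩ := (mem_nu _ _).1 h3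
        have := nu_inj e
        omega
      · show PairIn (qc ν c m) (nu n) (qc ν c b)
        rw [pairIn_iff]
        exact hh.1
      · show PairIn (qc ν c m') (nu n) (qc ν c b)
        rw [pairIn_iff]
        exact hh.2
    · rintro r ⟨N, hN⟩ _
      refine ⟨numH P Tg, fun ν' c' hg' hr' ⟨l, hl⟩ w' hw' u hu => ?_⟩
      have := gn_zf hg'
      obtain ⟨e1', e2', e3', e4', _⟩ := hE P Ω D ν' c' hg' hr'
      obtain ⟨b1', b2', b3'⟩ := hB P ν' c' hg' hr'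
      have w0 : ν' (w' 0) = chkH ξ := (hw' 0).trans hm
      have w1 : ν' (w' 1) = chkH ξ' := (hw' 1).trans hm'
      have w2 : ν' (w' 2) = aN D := (hw' 2).trans hb
      have w3 : ν' (w' 3) = omH P Tg := (hw' 3).trans hj
      refine ⟨nu N, ?_, fun n hn hnk hh => ?_⟩
      · show E (nu N) (qc ν' c' (w' 3))
        rw [b3' _ w3]
        exact nu_mem_om N
      · have hn' : E n (qc ν' c' (w' 3)) := hn
        rw [b3' _ w3] at hn'
        obtain ⟨v, rfl⟩ := b1' n hn'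
        have hv : N ≤ v := by
          by_contra h
          exact hnk (nu_lt (not_le.1 h))
        have h1 : PairIn (qc ν' c' (w' 0)) (nu v) (qc ν' c' (w' 2)) := hh.1
        have h2 : PairIn (qc ν' c' (w' 1)) (nu v) (qc ν' c' (w' 2)) := hh.2
        rw [pairIn_iff] at h1 h2
        obtain ⟨k1, hk1⟩ := (e3' _ _ ξ v w2 w0).1 h1
        obtain ⟨k2, hk2⟩ := (e3' _ _ ξ' v w2 w1).1 h2
        obtain ⟨s, hs, h3, h4⟩ := fb_both (Q := fun p (i : Ω × ℕ) => D.ar p i.1 i.2)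
          (Q' := fun p (i : Ω × ℕ) => D.ar p i.1 i.2)
          (fun p q i hq h => D.ar_mono hq h) hg' hl hk1 hk2
        exact hN v hv s hs ⟨h3, h4⟩
  · obtain ⟨ξ, m, hm, rfl⟩ := (e1 o ho x).1 hx
    obtain ⟨i, hi⟩ := hr.1 n
    have key := hG P ν c hg (fun N _ (w : Fin 4 → N) => ∃ v, E v (w 2) ∧
      Trr (w 0) (w 3) v (w 1)) ![m, z, j, i] 0
      (fun r => ∃ v, D.zr r ξ n v) (fun q _ => D.zr_tot q ξ n) ?_
    · obtain ⟨v, h1, h2⟩ := key
      have h1' : E v (qc ν c j) := h1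
      rw [b3 j hj] at h1'
      obtain ⟨v', rfl⟩ := b1 v h1'
      have h2' : Trr (qc ν c m) (qc ν c i) (nu v') (qc ν c z) := h2
      rw [b2 i n hi] at h2'
      have h3 : E (opair (qc ν c m) (opair (nu n) (nu v'))) (qc ν c z) := by
        obtain ⟨u, hu1, hu2⟩ := h2'
        rw [isOP_iff] at hu1
        rw [pairIn_iff, hu1] at hu2
        exact hu2
      refine ⟨v', h3, fun v'' h4 => ?_⟩
      obtain ⟨k1, hk1⟩ := (e4 _ _ ξ n v' hz hm).1 h3
      obtain ⟨k2, hk2⟩ := (e4 _ _ ξ n v'' hz hm).1 h4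
      obtain ⟨s, hs, h5, h6⟩ := fb_both (Q := fun p (i : Ω × ℕ × ℕ) => D.zr p i.1 i.2.1 i.2.2)
        (Q' := fun p (i : Ω × ℕ × ℕ) => D.zr p i.1 i.2.1 i.2.2)
        (fun p q i hq h => D.zr_mono hq h) hg (le_refl (c 0)) hk1 hk2
      exact D.zr_fun h6 h5
    · rintro r ⟨v, hv⟩ _
      refine ⟨numH P Tg, fun ν' c' hg' hr' ⟨l, hl⟩ w' hw' u hu => ?_⟩
      have := gn_zf hg'
      obtain ⟨e1', e2', e3', e4', _⟩ := hE P Ω D ν' c' hg' hr'
      obtain ⟨b1', b2', b3'⟩ := hB P ν' c' hg' hr'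
      have w0 : ν' (w' 0) = chkH ξ := (hw' 0).trans hm
      have w1 : ν' (w' 1) = zN D := (hw' 1).trans hz
      have w2 : ν' (w' 2) = omH P Tg := (hw' 2).trans hj
      have w3 : ν' (w' 3) = numH P Tg n := (hw' 3).trans hi
      refine ⟨nu v, ?_, ?_⟩
      · show E (nu v) (qc ν' c' (w' 2))
        rw [b3' _ w2]
        exact nu_mem_om v
      · show Trr (qc ν' c' (w' 0)) (qc ν' c' (w' 3)) (nu v) (qc ν' c' (w' 1))
        rw [b2' _ _ w3]
        refine ⟨opair (nu n) (nu v), isOP_iff.2 rfl, pairIn_iff.2 ?_⟩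
        exact (e4' _ _ ξ n v w1 w0).2 ⟨l, fun q hq => ⟨q, le_rfl, D.zr_mono (hq.trans hl) hv⟩⟩

end SSA
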